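import Mathlib

set_option autoImplicit false
open Set

namespace Pool.Agent.Results.MP_db617b_an.Counter

/-- the parameter space: ordered breakpoints in the unit interval and a probability vector -/
def P (k : ℕ) : Set ((Fin k → ℝ) × (Fin (k + 1) → ℝ)) :=
  {p | Monotone p.1 ∧ (∀ i, 0 ≤ p.1 i ∧ p.1 i ≤ 1) ∧ (∀ i, 0 ≤ p.2 i) ∧ ∑ i, p.2 i = 1}

/-- the breakpoints with 0 in front and 1 at the end -/
def ext {k : ℕ} (s : Fin k → ℝ) : Fin (k + 2) → ℝ := Fin.cons 0 (Fin.snoc s 1)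

/-- the coordinate of exponent a of the moment map -/
noncomputable def mu {k : ℕ} (a : ℕ) (p : (Fin k → ℝ) × (Fin (k + 1) → ℝ)) : ℝ :=
  ∑ i : Fin (k + 1), p.2 i *
    ((∑ j ∈ Finset.range (a + 1), ext p.1 i.succ ^ (a - j) * ext p.1 i.castSucc ^ j) / (a + 1))

/-- the fibre of the moment map -/
def fibre (k : ℕ) (A : Finset ℕ) (m : ℕ → ℝ) : Set ((Fin k → ℝ) × (Fin (k + 1) → ℝ)) :=
  {p ∈ P k | ∀ a ∈ A, mu a p = m a}

theorem e0 (s : Fin 2 → ℝ) : ext s 0 = 0 := rfl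
theorem e1 (s : Fin 2 → ℝ) : ext s 1 = s 0 := rfl
theorem e2 (s : Fin 2 → ℝ) : ext s 2 = s 1 := rfl
theorem e3 (s : Fin 2 → ℝ) : ext s 3 = 1 := rfl

theorem mu_eq (a : ℕ) (p : (Fin 2 → ℝ) × (Fin 3 → ℝ)) : mu a p =
    p.2 0 * ((∑ j ∈ Finset.range (a + 1), p.1 0 ^ (a - j) * 0 ^ j) / (a + 1)) +
    p.2 1 * ((∑ j ∈ Finset.range (a + 1), p.1 1 ^ (a - j) * p.1 0 ^ j) / (a + 1)) +
    p.2 2 * ((∑ j ∈ Finset.range (a + 1), 1 ^ (a - j) * p.1 1 ^ j) / (a + 1)) := by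
  rw [mu, Fin.sum_univ_three]
  rfl

theorem result : ∃ m : ℕ → ℝ, ¬ IsPreconnected (fibre 2 {0, 1, 2, 3} m) := by
  let p : (Fin 2 → ℝ) × (Fin 3 → ℝ) := (![1 / 5, 2 / 5], ![6 / 40, 1 / 40, 33 / 40])
  let q : (Fin 2 → ℝ) × (Fin 3 → ℝ) := (![3 / 5, 4 / 5], ![15 / 40, 15 / 40, 10 / 40])
  refine ⟨fun a => mu a p, fun h => ?_⟩
  have hp : p ∈ fibre 2 {0, 1, 2, 3} fun a => mu a p := by
    refine ⟨⟨?_, fun i => ?_, fun i => ?_, ?_⟩, fun _ _ => rfl⟩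
    · exact Fin.monotone_iff_le_succ.mpr fun i => by fin_cases i; norm_num [p]
    · fin_cases i <;> norm_num [p]
    · fin_cases i <;> norm_num [p]
    · norm_num [p, Fin.sum_univ_succ]
  have hq : q ∈ fibre 2 {0, 1, 2, 3} fun a => mu a p := by
    refine ⟨⟨?_, fun i => ?_, fun i => ?_, ?_⟩, fun a ha => ?_⟩
    · exact Fin.monotone_iff_le_succ.mpr fun i => by fin_cases i; norm_num [q]
    · fin_cases i <;> norm_num [q]
    · fin_cases i <;> norm_num [q]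
    · norm_num [q, Fin.sum_univ_succ]
    · simp only [Finset.mem_insert, Finset.mem_singleton] at ha
      rcases ha with rfl | rfl | rfl | rfl <;>
        simp [mu_eq, p, q, Finset.sum_range_succ] <;> norm_num
  obtain ⟨r, ⟨⟨-, -, -, h0⟩, hr⟩, hJ⟩ := h.intermediate_value hp hq
    (f := fun r => r.2 1 * r.1 0 - r.2 0 * (r.1 1 - r.1 0)) (by fun_prop)
    (show (0 : ℝ) ∈ _ by simp [p, q]; norm_num)
  have h1 := hr 1 (by simp)
  have h2 := hr 2 (by simp)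
  have h3 := hr 3 (by simp)
  simp [mu_eq, p, Finset.sum_range_succ] at h1 h2 h3
  rw [Fin.sum_univ_three] at h0
  simp only at hJ
  obtain ⟨s, w⟩ := r
  simp only at *
  have k1 : s 1 + w 2 = 6 / 5 := by linear_combination 2 * h1 - hJ - s 1 * h0
  have k2 : s 1 ^ 2 + w 2 * (1 + s 1) = 13 / 10 := by
    linear_combination 3 * h2 - (s 0 + s 1) * hJ - s 1 ^ 2 * h0
  have k3 : s 1 ^ 3 + w 2 * (1 + s 1 + s 1 ^ 2) = 168 / 125 := by
    linear_combination 4 * h3 - (s 0 ^ 2 + s 0 * s 1 + s 1 ^ 2) * hJ - s 1 ^ 3 * h0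
  have k4 : s 1 = 1 / 2 := by linear_combination 5 * k2 - 5 * (1 + s 1) * k1
  have k5 : w 2 = 7 / 10 := by linarith
  rw [k4, k5] at k3
  norm_num at k3

end Pool.Agent.Results.MP_db617b_an.Counter
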